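import Pool.Agent.H815.QC.Stm2

/-!
# Project QC, statement A6 (helper322)
-/

set_option autoImplicit false

namespace Pool.Agent.H322.QC

open Pool.Agent.H815.QC Pool.Agent.Y110.FJ Pool.Agent.T2H65.GP

section balls

variable {G H : Type} [Group G] [Group H]

theorem ball_one (X : Set G) : (1 : G) ∈ ball X 0 := ⟨[], by simp, by simp, by simp⟩

theorem ball_mono (X : Set G) {m n : ℕ} (h : m ≤ n) {a : G} (ha : a ∈ ball X m) : a ∈ ball X n := by
  obtain ⟨l, h1, h2, h3⟩ := ha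
  exact ⟨l, h1.trans h, h2, h3⟩

theorem ball_mul (X : Set G) {m n : ℕ} {a b : G} (ha : a ∈ ball X m) (hb : b ∈ ball X n) :
    a * b ∈ ball X (m + n) := by
  obtain ⟨l, h1, h2, h3⟩ := ha
  obtain ⟨l', h1', h2', h3'⟩ := hb
  refine ⟨l ++ l', ?_, ?_, ?_⟩
  · rw [List.length_append]; omega
  · intro x hx
    rcases List.mem_append.1 hx with hx | hx
    · exact h2 x hx
    · exact h2' x hx
  · rw [List.prod_append, h3, h3']

theorem ball_inv (X : Set G) {n : ℕ} {a : G} (ha : a ∈ ball X n) : a⁻¹ ∈ ball X n := by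
  obtain ⟨l, h1, h2, h3⟩ := ha
  refine ⟨(l.map fun x => x⁻¹).reverse, ?_, ?_, ?_⟩
  · rw [List.length_reverse, List.length_map]; exact h1
  · intro x hx
    rw [List.mem_reverse, List.mem_map] at hx
    obtain ⟨y, hy, rfl⟩ := hx
    rw [inv_inv]
    exact (h2 y hy).symm
  · rw [← List.prod_inv_reverse, h3]

theorem ball_map (φ : G →* H) (X : Set G) (Y : Set H) (h : ∀ x ∈ X, φ x ∈ Y) {n : ℕ} {a : G}
    (ha : a ∈ ball X n) : φ a ∈ ball Y n := by
  obtain ⟨l, h1, h2, h3⟩ := ha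
  refine ⟨l.map φ, ?_, ?_, ?_⟩
  · rw [List.length_map]; exact h1
  · intro y hy
    rw [List.mem_map] at hy
    obtain ⟨x, hx, rfl⟩ := hy
    rcases h2 x hx with h4 | h4
    · exact Or.inl (h x h4)
    · right
      rw [← map_inv]
      exact h _ h4
  · rw [← map_list_prod, h3]

/-- from generators to balls -/
theorem ext_ball (X : Set G) (Y : Set H) (f : G → H) (M : ℕ)
    (hf : ∀ x, ∀ s ∈ X, (f x)⁻¹ * f (x * s) ∈ ball Y M) (N : ℕ) (x z : G) (hz : z ∈ ball X N) :
    (f x)⁻¹ * f (x * z) ∈ ball Y (M * N) := by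
  obtain ⟨l, h1, h2, rfl⟩ := hz
  have key : ∀ l : List G, (∀ s ∈ l, s ∈ X ∨ s⁻¹ ∈ X) → ∀ x : G,
      (f x)⁻¹ * f (x * l.prod) ∈ ball Y (M * l.length) := by
    intro l
    induction l with
    | nil =>
      intro _ x
      rw [List.prod_nil, mul_one, inv_mul_cancel, List.length_nil, mul_zero]
      exact ball_one Y
    | cons s l ih =>
      intro hl x
      have h3 : (f x)⁻¹ * f (x * s) ∈ ball Y M := by
        rcases hl s List.mem_cons_self with h | h
        · exact hf x s h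
        · have h4 := ball_inv Y (hf (x * s) s⁻¹ h)
          rw [mul_inv_cancel_right] at h4
          rwa [_root_.mul_inv_rev, inv_inv] at h4
      have h5 := ih (fun t ht => hl t (List.mem_cons_of_mem _ ht)) (x * s)
      have h6 := ball_mul Y h3 h5
      rw [List.prod_cons, List.length_cons, Nat.mul_succ, add_comm]
      have h7 : (f x)⁻¹ * f (x * s) * ((f (x * s))⁻¹ * f (x * s * l.prod)) =
          (f x)⁻¹ * f (x * (s * l.prod)) := by
        rw [← mul_assoc x s, mul_assoc, mul_inv_cancel_left]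
      rw [← h7]
      exact h6
  exact ball_mono Y (Nat.mul_le_mul_left M h1) (key l h2 x)

end balls

theorem A6_proof : Pool.Agent.H815.QC.S_A6 := by
  intro hA1 hA2 hA3 hA4 hA5
  obtain ⟨β, hβ1, M, hβa, hβb⟩ := hA1
  obtain ⟨F, hFa, hFb⟩ := hA2 (Fin 5) C5 G3 F2 β hβ1
  obtain ⟨e1, he1⟩ := hA3
  obtain ⟨e2, he2⟩ := hA4
  let f : PresentedGroup (relC ΓF) → PresentedGroup (relA ΛF) := fun x => e2.symm (F (e1 x))
  let f' : PresentedGroup (relA ΛF) → PresentedGroup (relC ΓF) := fun y => e1.symm (F.symm (e2 y))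
  have hff' : ∀ y, f (f' y) = y := by
    intro y
    show e2.symm (F (e1 (e1.symm (F.symm (e2 y))))) = y
    rw [MulEquiv.apply_symm_apply, Equiv.apply_symm_apply, MulEquiv.symm_apply_apply]
  have hf'f : ∀ x, f' (f x) = x := by
    intro x
    show e1.symm (F.symm (e2 (e2.symm (F (e1 x))))) = x
    rw [MulEquiv.apply_symm_apply, Equiv.symm_apply_apply, MulEquiv.symm_apply_apply]
  -- the inclusions of the vertex groups
  let j1 : Fin 5 → (G3 →* PresentedGroup (relC ΓF)) := fun v =>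
    e1.symm.toMonoidHom.comp (GrP.of C5 (fun _ => G3) v)
  let j2 : Fin 5 → (F2 →* PresentedGroup (relA ΛF)) := fun v =>
    e2.symm.toMonoidHom.comp (GrP.of C5 (fun _ => F2) v)
  have hj1 : ∀ v, ∀ x ∈ Set.range g3, j1 v x ∈ Set.range (PresentedGroup.of (rels := relC ΓF)) := by
    rintro v _ ⟨i, rfl⟩
    refine ⟨finProdFinEquiv (v, i), ?_⟩
    show _ = e1.symm (GrP.of C5 (fun _ => G3) v (g3 i))
    rw [MulEquiv.eq_symm_apply, he1, Equiv.symm_apply_apply]
  have hj2 : ∀ v, ∀ x ∈ Set.range (FreeGroup.of : Fin 2 → F2),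
      j2 v x ∈ Set.range (PresentedGroup.of (rels := relA ΛF)) := by
    rintro v _ ⟨i, rfl⟩
    refine ⟨finProdFinEquiv (v, i), ?_⟩
    show _ = e2.symm (GrP.of C5 (fun _ => F2) v (FreeGroup.of i))
    rw [MulEquiv.eq_symm_apply, he2, Equiv.symm_apply_apply]
  have hgen : ∀ x, ∀ s ∈ Set.range (PresentedGroup.of (rels := relC ΓF)),
      (f x)⁻¹ * f (x * s) ∈ ball (Set.range (PresentedGroup.of (rels := relA ΛF))) M := by
    rintro x _ ⟨a, rfl⟩
    obtain ⟨k, hk⟩ := hFa (e1 x) (finProdFinEquiv.symm a).1 (g3 (finProdFinEquiv.symm a).2)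
    have h1 : (f x)⁻¹ * f (x * PresentedGroup.of a) =
        j2 (finProdFinEquiv.symm a).1 ((β k)⁻¹ * β (k * g3 (finProdFinEquiv.symm a).2)) := by
      show (e2.symm (F (e1 x)))⁻¹ * e2.symm (F (e1 (x * PresentedGroup.of a))) =
        e2.symm (GrP.of C5 (fun _ => F2) (finProdFinEquiv.symm a).1
          ((β k)⁻¹ * β (k * g3 (finProdFinEquiv.symm a).2)))
      rw [← hk, map_mul e2.symm, map_inv e2.symm, map_mul e1, he1]
    rw [h1]
    exact ball_map (j2 _) _ _ (hj2 _) (hβa k _)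
  have hgen' : ∀ x, ∀ s ∈ Set.range (PresentedGroup.of (rels := relA ΛF)),
      (f' x)⁻¹ * f' (x * s) ∈ ball (Set.range (PresentedGroup.of (rels := relC ΓF))) M := by
    rintro x _ ⟨a, rfl⟩
    obtain ⟨k, hk⟩ := hFb (e2 x) (finProdFinEquiv.symm a).1
      (FreeGroup.of (finProdFinEquiv.symm a).2)
    have h1 : (f' x)⁻¹ * f' (x * PresentedGroup.of a) =
        j1 (finProdFinEquiv.symm a).1
          ((β.symm k)⁻¹ * β.symm (k * FreeGroup.of (finProdFinEquiv.symm a).2)) := by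
      show (e1.symm (F.symm (e2 x)))⁻¹ * e1.symm (F.symm (e2 (x * PresentedGroup.of a))) =
        e1.symm (GrP.of C5 (fun _ => G3) (finProdFinEquiv.symm a).1
          ((β.symm k)⁻¹ * β.symm (k * FreeGroup.of (finProdFinEquiv.symm a).2)))
      rw [← hk, map_mul e1.symm, map_inv e1.symm, map_mul e2, he2]
    rw [h1]
    exact ball_map (j1 _) _ _ (hj1 _) (hβb k _)
  refine ⟨5 * 2, ΛF, f, M, 0, ?_, ?_, ?_⟩
  · intro x y N hN
    have h1 := (hA5 (5 * 3) (relC ΓF) (x⁻¹ * y) N).1 hN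
    have h2 := ext_ball _ _ f M hgen N x (x⁻¹ * y) h1
    rw [mul_inv_cancel_left] at h2
    rw [add_zero]
    exact (hA5 (5 * 2) (relA ΛF) ((f x)⁻¹ * f y) (M * N)).2 h2
  · intro x y N hN
    have h1 := (hA5 (5 * 2) (relA ΛF) ((f x)⁻¹ * f y) N).1 hN
    have h2 := ext_ball _ _ f' M hgen' N (f x) ((f x)⁻¹ * f y) h1
    rw [mul_inv_cancel_left, hf'f, hf'f] at h2
    rw [add_zero]
    exact (hA5 (5 * 3) (relC ΓF) (x⁻¹ * y) (M * N)).2 h2
  · intro z
    refine ⟨f' z, 1, ?_, ?_⟩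
    · rw [hff', map_one, inv_mul_cancel]
    · simp

end Pool.Agent.H322.QC
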